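import Pool.Agent.KS6_46.RT.A

/-!
# `2 ^ κ` rigid uniformly `κ`-branching branchwise-real trees

For every cardinal `κ ≥ 𝔠` (in particular for every `κ > 𝔠⁺`) there are `2 ^ κ` pairwise
non-isomorphic branchwise-real trees which are uniformly `κ`-branching and rigid, and which carry a
strictly increasing height function that maps every branch onto an interval of `ℝ`.
-/

set_option autoImplicit false

namespace Pool.Agent.Results.MP_91fb13_lc.ManyRigidTrees

open Set Cardinal Pool.Agent.KS6_46.RT

universe u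

/-- Branchwise-real trees: a partial order in which the elements below any element form a chain
(a tree order), every branch (maximal chain) is order-isomorphic to an interval of `ℝ`, and any two
elements have a greatest common lower bound. -/
structure IsBranchwiseReal (X : Type u) [PartialOrder X] : Prop where
  tree : ∀ x : X, IsChain (· ≤ ·) {y | y ≤ x}
  branch : ∀ B : Set X, IsMaxChain (· ≤ ·) B → ∃ I : Set ℝ, I.OrdConnected ∧ Nonempty (B ≃o I)
  meet : ∀ x y : X, ∃ m, IsGLB {x, y} m

/-- The degree of `x`: the number of components above `x`, where `y, z > x` are in the same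
component if there is a `w` with `x < w`, `w ≤ y` and `w ≤ z`. -/
noncomputable def degree {X : Type u} [PartialOrder X] (x : X) : Cardinal.{u} :=
  Cardinal.mk (Quot fun y z : {y // x < y} => ∃ w, x < w ∧ w ≤ y.1 ∧ w ≤ z.1)

/-- For every `κ ≥ 𝔠` there are `2 ^ κ` nonempty branchwise-real trees, all of them uniformly
`κ`-branching and rigid and with a strictly increasing map to `ℝ` that maps every branch onto an
interval, no two of which are isomorphic. -/
theorem result (κ : Cardinal.{u}) (hκ : continuum ≤ κ) :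
    ∃ (I : Type u) (X : I → Type u) (_ : ∀ i, PartialOrder (X i)), #I = 2 ^ κ ∧
      (∀ i, Nonempty (X i) ∧ IsBranchwiseReal (X i) ∧ (∀ x : X i, degree x = κ) ∧
        (∀ φ : X i ≃o X i, ∀ x, φ x = x) ∧
        ∃ g : X i → ℝ, StrictMono g ∧
          ∀ B : Set (X i), IsMaxChain (· ≤ ·) B → (g '' B).OrdConnected) ∧
      ∀ i j, i ≠ j → IsEmpty (X i ≃o X j) := by
  induction κ using Cardinal.inductionOn with
  | _ K =>
  have i : Infinite K := infinite_iff.2 (aleph0_le_continuum.trans hκ)
  let : Inhabited K := ⟨Classical.arbitrary K⟩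
  have c : ∀ t, cur (fun _ => (l0 : L K)) t l0 := fun _ => .of_forall fun _ => rfl
  refine ⟨Set K, fun A => T A, fun A => inferInstance, by simp, fun A => ?_, fun A B h => ⟨fun φ =>
    h (Set.ext fun k => ⟨mark φ k, mark φ.symm k⟩)⟩⟩
  have t : ∀ x : T A, IsChain (· ≤ ·) {y | y ≤ x} := fun x y a z b _ =>
    (le_total y.h z.h).imp (le_of_h a b) (le_of_h b a)
  have hB : ∀ B : Set (T A), IsMaxChain (· ≤ ·) B →
      ((fun x : T A => x.h) '' B).OrdConnected ∧ Nonempty (B ≃o ((fun x : T A => x.h) '' B)) := by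
    intro B hB
    have m : ∀ x y : B, x.1.h ≤ y.1.h ↔ x ≤ y := fun x y => ⟨fun l =>
      (hB.1.total x.2 y.2).elim id fun k => le_of_h le_rfl k l, fun l => l.1⟩
    let e : B ↪o ℝ := .ofMapLEIff (fun x => x.1.h) m
    have hr : range e = (fun x : T A => x.h) '' B := by
      ext r
      simp [e]
    rw [← hr]
    refine ⟨⟨?_⟩, ⟨e.orderIso⟩⟩
    rintro _ ⟨x, rfl⟩ _ ⟨y, rfl⟩ r ⟨-, b⟩
    obtain ⟨p, l, rfl⟩ := res y.1 b
    refine ⟨⟨p, hB.2 (hB.1.insert fun z hz _ => ?_) (subset_insert _ _) ▸ mem_insert _ _⟩, rfl⟩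
    rcases hB.1.total y.2 hz with k | k
    exacts [.inl (l.trans k), (le_total p.h z.h).imp (le_of_h l k) (le_of_h k l)]
  refine ⟨⟨mk (H := 0) ⟨⟨0, fun _ _ _ => rfl⟩, fun _ _ =>
    .of_forall fun _ => rfl, fun t _ => .inl (c t), finite_empty.subset fun t p => p.2.2 (c t)⟩⟩,
    ⟨t, fun B h => ⟨_, hB B h⟩, meet⟩, fun x => le_antisymm ?_ ?_, rigid,
    fun x => x.h, fun x y h => (lt_iff.1 h).2, fun B h => (hB B h).1⟩
  · refine (mk_le_of_injective (f := Quot.lift (fun y => y.1.f x.h) fun y z => (comp y.2 z.2).2)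
      ?_).trans ?_
    · rintro ⟨y⟩ ⟨z⟩ e
      exact Quot.sound ((comp y.2 z.2).1 e)
    · have := aleph0_le_mk K
      simpa [mk_real, add_eq_left this hκ] using
        (mul_eq_right this ((natCast_lt_aleph0 (n := 3)).le.trans this) (by simp)).le
  · choose y a _ b using fun k => ext x (m := (1, .inl k)) (.inr (.inl ⟨rfl, .inr ⟨k, rfl⟩⟩))
      (lt_add_one _)
    refine mk_le_of_injective (f := fun k => Quot.mk _ ⟨y k, a k⟩) fun k l e => ?_
    simpa [b] using congrArg (Quot.lift (fun y => y.1.f x.h) fun y z => (comp y.2 z.2).2) e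

end Pool.Agent.Results.MP_91fb13_lc.ManyRigidTrees
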